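import Pool.Agent.Lib.MP_cc2398_al.All

set_option autoImplicit false

/-!
# MP_cc2398_al: normal closures without small quotients

`DD c K` is the union of the subgroups `Res_c Γ` (the intersection of the subgroups of index at most `c`) over the
finitely generated subgroups `Γ` of `K`.  The functor `K ↦ DD c K` is monotone and commutes with directed unions, and
`DD c G = G` if `G` is not locally finite and `R` is the largest proper normal subgroup.  So for `x ∉ R` the normal
closure `X` of `x` in a large proper subgroup satisfies `X = DD c X = [X, X]`.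
-/

namespace Pool.Agent.MPcc2398

universe u v

namespace Bf

/-- The union of the `Res_c Γ`, `Γ ≤ K` finitely generated. -/
def DD {G : Type u} [Group G] (c : ℕ) (K : Subgroup G) : Subgroup G where
  carrier := {g | ∃ s : Finset G, (s : Set G) ⊆ K ∧ g ∈ Subgroup.closure (s : Set G) ∧
    ∀ Y : Subgroup G, Y.relIndex (Subgroup.closure (s : Set G)) ≠ 0 →
      Y.relIndex (Subgroup.closure (s : Set G)) ≤ c → g ∈ Y}
  one_mem' := ⟨∅, by simp, Subgroup.one_mem _, fun Y _ _ => Y.one_mem⟩
  mul_mem' := by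
    classical
    rintro a b ⟨s, hs, has, ha⟩ ⟨t, ht, hbt, hb⟩
    have hs' : Subgroup.closure (s : Set G) ≤ Subgroup.closure ((s ∪ t : Finset G) : Set G) :=
      Subgroup.closure_mono (by simp)
    have ht' : Subgroup.closure (t : Set G) ≤ Subgroup.closure ((s ∪ t : Finset G) : Set G) :=
      Subgroup.closure_mono (by simp)
    refine ⟨s ∪ t, ?_, Subgroup.mul_mem _ (hs' has) (ht' hbt), ?_⟩
    · rw [Finset.coe_union]
      exact Set.union_subset hs ht
    · intro Y h0 hc
      have h1 : Y.relIndex (Subgroup.closure (s : Set G)) ≠ 0 := fun h =>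
        h0 (Subgroup.relIndex_eq_zero_of_le_right hs' h)
      have h2 : Y.relIndex (Subgroup.closure (t : Set G)) ≠ 0 := fun h =>
        h0 (Subgroup.relIndex_eq_zero_of_le_right ht' h)
      exact Y.mul_mem (ha Y h1 ((Subgroup.relIndex_le_of_le_right hs' h0).trans hc))
        (hb Y h2 ((Subgroup.relIndex_le_of_le_right ht' h0).trans hc))
  inv_mem' := by
    rintro a ⟨s, hs, has, ha⟩
    exact ⟨s, hs, Subgroup.inv_mem _ has, fun Y h0 hc => Y.inv_mem (ha Y h0 hc)⟩

theorem mem_DD {G : Type u} [Group G] {c : ℕ} {K : Subgroup G} {g : G} : g ∈ DD c K ↔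
    ∃ s : Finset G, (s : Set G) ⊆ K ∧ g ∈ Subgroup.closure (s : Set G) ∧
    ∀ Y : Subgroup G, Y.relIndex (Subgroup.closure (s : Set G)) ≠ 0 →
      Y.relIndex (Subgroup.closure (s : Set G)) ≤ c → g ∈ Y := Iff.rfl

theorem cj_closure {G : Type u} [Group G] [DecidableEq G] (l : G) (s : Finset G) :
    cj l (Subgroup.closure (s : Set G)) =
      Subgroup.closure ((s.image (fun a => l * a * l⁻¹) : Finset G) : Set G) := by
  unfold cj
  rw [MonoidHom.map_closure, Finset.coe_image]
  rfl

/-- `DD c K` is normalised by the normaliser of `K`. -/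
theorem inv_DD {G : Type u} [Group G] (c : ℕ) {L K : Subgroup G} (h : Inv L K) : Inv L (DD c K) := by
  classical
  rintro l hl g ⟨s, hs, hgs, hg⟩
  refine ⟨s.image (fun a => l * a * l⁻¹), ?_, ?_, ?_⟩
  · intro y hy
    obtain ⟨a, ha, rfl⟩ := Finset.mem_image.1 (Finset.mem_coe.1 hy)
    exact h l hl a (hs ha)
  · rw [← cj_closure]
    exact conj_mem_cj hgs
  · intro Y h0 hc
    rw [← cj_closure] at h0 hc
    have h1 : (cj l⁻¹ Y).relIndex (Subgroup.closure (s : Set G)) =
        Y.relIndex (cj l (Subgroup.closure (s : Set G))) := by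
      have h2 : Subgroup.closure (s : Set G) = cj l⁻¹ (cj l (Subgroup.closure (s : Set G))) := by
        rw [← cj_mul, inv_mul_cancel, cj_one]
      rw [h2, ← h2]
      have h3 : (cj l⁻¹ Y).relIndex (cj l⁻¹ (cj l (Subgroup.closure (s : Set G)))) =
          Y.relIndex (cj l (Subgroup.closure (s : Set G))) :=
        Subgroup.relIndex_map_map_of_injective _ _ (MulAut.conj l⁻¹).injective
      rwa [← h2] at h3
    have h4 := hg (cj l⁻¹ Y) (by rw [h1]; exact h0) (by rw [h1]; exact hc)
    rw [mem_cj'] at h4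
    simpa using h4

/-- A subgroup of index at most `c` in `X` contains `DD c X`. -/
theorem DD_le {G : Type u} [Group G] {c : ℕ} {X Y : Subgroup G} (h0 : Y.relIndex X ≠ 0)
    (hc : Y.relIndex X ≤ c) : DD c X ≤ Y := by
  rintro g ⟨s, hs, -, hg⟩
  have hs' : Subgroup.closure (s : Set G) ≤ X := (Subgroup.closure_le X).2 hs
  exact hg Y (fun h => h0 (Subgroup.relIndex_eq_zero_of_le_right hs' h))
    ((Subgroup.relIndex_le_of_le_right hs' h0).trans hc)

theorem NC_mono {G : Type u} [Group G] {L L' A : Subgroup G} (h : L ≤ L') : NC L A ≤ NC L' A :=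
  iSup_le fun x => cj_le_NC (h x.2)

/-- If the normal closure of `x` is `G`, each finite set is contained in the normal closure of `x` in some proper
subgroup. -/
theorem exists_NC {G : Type u} [Group G] {H : Subgroup G} (hTB : TB H) {x : G}
    (hx : Subgroup.normalClosure {x} = (⊤ : Subgroup G)) (s : Finset G) :
    ∃ L : Subgroup G, L ≠ ⊤ ∧ (s : Set G) ⊆ NC L (Subgroup.zpowers x) := by
  classical
  have hbot : (⊥ : Subgroup G) ≠ ⊤ := by
    intro h
    have := hTB.cyc 1
    rw [Subgroup.zpowers_one_eq_bot] at this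
    exact this h
  let U : Subgroup G :=
    { carrier := {y | ∃ L : Subgroup G, L ≠ ⊤ ∧ y ∈ NC L (Subgroup.zpowers x)}
      one_mem' := ⟨⊥, hbot, Subgroup.one_mem _⟩
      mul_mem' := by
        rintro a b ⟨L, hL, ha⟩ ⟨L', hL', hb⟩
        exact ⟨L ⊔ L', hTB.join _ _ hL hL', Subgroup.mul_mem _ (NC_mono le_sup_left ha)
          (NC_mono le_sup_right hb)⟩
      inv_mem' := by
        rintro a ⟨L, hL, ha⟩
        exact ⟨L, hL, Subgroup.inv_mem _ ha⟩ }
  have hU : U = ⊤ := by
    rw [eq_top_iff, ← hx]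
    unfold Subgroup.normalClosure
    rw [Subgroup.closure_le]
    intro y hy
    rw [Group.mem_conjugatesOfSet_iff] at hy
    obtain ⟨a, ha, hy⟩ := hy
    rw [Set.mem_singleton_iff] at ha
    subst ha
    rw [isConj_iff] at hy
    obtain ⟨g, hg⟩ := hy
    refine ⟨Subgroup.zpowers g, hTB.cyc g, ?_⟩
    refine cj_le_NC (x := g) (Subgroup.mem_zpowers g) ?_
    rw [← hg]
    exact conj_mem_cj (Subgroup.mem_zpowers a)
  induction s using Finset.induction_on with
  | empty => exact ⟨⊥, hbot, by simp⟩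
  | insert a s _ ih =>
    obtain ⟨L, hL, h⟩ := ih
    have ha : a ∈ U := by rw [hU]; exact Subgroup.mem_top a
    obtain ⟨L', hL', h'⟩ := ha
    refine ⟨L ⊔ L', hTB.join _ _ hL hL', ?_⟩
    rw [Finset.coe_insert, Set.insert_subset_iff]
    exact ⟨NC_mono le_sup_right h', fun y hy => NC_mono le_sup_left (h hy)⟩

/-- An element of `[G, G]` lies in `[Γ, Γ]` for a finitely generated `Γ`. -/
theorem comm_fin {G : Type u} [Group G] {x : G} (hx : x ∈ (⁅(⊤ : Subgroup G), ⊤⁆ : Subgroup G)) :
    ∃ s : Finset G, x ∈ (⁅Subgroup.closure (s : Set G), Subgroup.closure (s : Set G)⁆ : Subgroup G) := by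
  classical
  let U : Subgroup G :=
    { carrier := {x | ∃ s : Finset G,
        x ∈ (⁅Subgroup.closure (s : Set G), Subgroup.closure (s : Set G)⁆ : Subgroup G)}
      one_mem' := ⟨∅, Subgroup.one_mem _⟩
      mul_mem' := by
        rintro a b ⟨s, ha⟩ ⟨t, hb⟩
        have hs' : Subgroup.closure (s : Set G) ≤ Subgroup.closure ((s ∪ t : Finset G) : Set G) :=
          Subgroup.closure_mono (by simp)
        have ht' : Subgroup.closure (t : Set G) ≤ Subgroup.closure ((s ∪ t : Finset G) : Set G) :=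
          Subgroup.closure_mono (by simp)
        exact ⟨s ∪ t, Subgroup.mul_mem _ (Subgroup.commutator_mono hs' hs' ha)
          (Subgroup.commutator_mono ht' ht' hb)⟩
      inv_mem' := by
        rintro a ⟨s, ha⟩
        exact ⟨s, Subgroup.inv_mem _ ha⟩ }
  have h : (⁅(⊤ : Subgroup G), ⊤⁆ : Subgroup G) ≤ U := by
    rw [Subgroup.commutator_le]
    intro a _ b _
    exact ⟨{a, b}, Subgroup.commutator_mem_commutator (Subgroup.subset_closure (by simp))
      (Subgroup.subset_closure (by simp))⟩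
  exact h hx

theorem inv_comm {G : Type u} [Group G] {L K : Subgroup G} (h : Inv L K) : Inv L ⁅K, K⁆ := by
  intro l hl m hm
  have h1 : l * m * l⁻¹ ∈ cj l ⁅K, K⁆ := conj_mem_cj hm
  have h2 : cj l ⁅K, K⁆ = ⁅cj l K, cj l K⁆ := Subgroup.map_commutator _ _ _
  rw [h2, cj_eq_of_inv h hl] at h1
  exact h1

/-- If `L` normalises `M`, `x ∈ M` then the normal closure of `x` in `L` is in `M`. -/
theorem NC_le_of_inv {G : Type u} [Group G] {L M : Subgroup G} (h : Inv L M) {x : G} (hx : x ∈ M) :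
    NC L (Subgroup.zpowers x) ≤ M := by
  refine iSup_le fun l => ?_
  have h1 : cj (l : G) (Subgroup.zpowers x) ≤ cj (l : G) M := cj_mono _ ((Subgroup.zpowers_le).2 hx)
  rwa [cj_eq_of_inv h l.2] at h1

/-- `DD c G = G` if `G` is not locally finite. -/
theorem DD_top {G : Type u} [Group G] (R : Subgroup G) (hRLF : LF R)
    (hRmax : ∀ N : Subgroup G, N.Normal → N ≠ ⊤ → N ≤ R) (hnlf : ¬ LF (⊤ : Subgroup G)) (c : ℕ) :
    DD c (⊤ : Subgroup G) = ⊤ := by
  by_contra hne
  have hinv : Inv (⊤ : Subgroup G) (DD c (⊤ : Subgroup G)) := inv_DD c (inv_self ⊤)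
  have hn : (DD c (⊤ : Subgroup G)).Normal := ⟨fun g hg x => hinv x (Subgroup.mem_top x) g hg⟩
  have hle := hRmax _ hn hne
  refine hnlf (aExt G R ⊤ hRLF ?_)
  intro s _
  have hfg : Group.FG (Subgroup.closure (s : Set G)) := by
    rw [Group.fg_iff_subgroup_fg]
    exact ⟨s, rfl⟩
  obtain ⟨J, hJ0, hJ⟩ := aFG (Subgroup.closure (s : Set G)) hfg c
  have h1 : J ≤ R.subgroupOf (Subgroup.closure (s : Set G)) := by
    intro g hg
    rw [Subgroup.mem_subgroupOf]
    refine hle ⟨s, by simp, g.2, ?_⟩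
    intro Y h0 hc
    exact hJ (Y.subgroupOf (Subgroup.closure (s : Set G))) h0 hc hg
  intro h0
  have h2 : (R.subgroupOf (Subgroup.closure (s : Set G))).index ∣ J.index :=
    Subgroup.index_dvd_of_le h1
  have h3 : (R.subgroupOf (Subgroup.closure (s : Set G))).index = 0 := h0
  rw [h3, zero_dvd_iff] at h2
  exact hJ0 h2

end Bf

open Bf in
/-- **BF.**  For `x` outside the largest proper normal subgroup `R` the normal closure `X` of `x` in a large proper
subgroup is perfect and has no proper subgroup of index at most `c`. -/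
theorem aBF (G : Type u) [Group G] (H : Subgroup G) (hTB : TB H)
    (hcore : ∀ N : Subgroup G, N.Normal → N ≤ H → N = ⊥) (hnlf : ¬ LF (⊤ : Subgroup G)) :
    ∃ R : Subgroup G, R.Normal ∧ R ≠ ⊤ ∧ LF R ∧ (∀ N : Subgroup G, N.Normal → N ≠ ⊤ → N ≤ R) ∧
      ∀ (c : ℕ) (x : G), x ∉ R → ∃ L : Subgroup G, L ≠ ⊤ ∧ H ≤ L ∧ x ∈ L ∧
        ∀ L' : Subgroup G, L ≤ L' →
        NC L' (Subgroup.zpowers x) ≤ ⁅NC L' (Subgroup.zpowers x), NC L' (Subgroup.zpowers x)⁆ ∧
        ∀ Y : Subgroup G, Y.relIndex (NC L' (Subgroup.zpowers x)) ≠ 0 →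
          Y.relIndex (NC L' (Subgroup.zpowers x)) ≤ c → NC L' (Subgroup.zpowers x) ≤ Y := by
  classical
  obtain ⟨R, hRn, hRt, hRLF, hRmax, hst⟩ := aMain G H hTB hcore hnlf
  refine ⟨R, hRn, hRt, hRLF, hRmax, ?_⟩
  intro c x hx
  have hncl : Subgroup.normalClosure {x} = (⊤ : Subgroup G) := by
    by_contra h
    exact hx (hRmax _ Subgroup.normalClosure_normal h (Subgroup.subset_normalClosure (by simp)))
  have hcomm : (⁅(⊤ : Subgroup G), ⊤⁆ : Subgroup G) = ⊤ := by
    by_contra h
    have hle := hRmax _ inferInstance h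
    have hHH : Co H H := by
      constructor <;> · rw [Subgroup.relIndex_self]; exact one_ne_zero
    obtain ⟨b1, -⟩ := hst H hHH
    apply hRt
    rw [Subgroup.eq_top_iff']
    intro g
    apply b1 g
    intro k _
    exact hle (Subgroup.commutator_mem_commutator (Subgroup.mem_top g) (Subgroup.mem_top k))
  obtain ⟨s, hs⟩ := comm_fin (x := x) (by rw [hcomm]; exact Subgroup.mem_top x)
  have hxD : x ∈ DD c (⊤ : Subgroup G) := by
    rw [DD_top R hRLF hRmax hnlf c]
    exact Subgroup.mem_top x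
  obtain ⟨t, -, hxt, ht⟩ := hxD
  obtain ⟨L₀, hL₀, hst₀⟩ := exists_NC hTB hncl (s ∪ t)
  obtain ⟨L, hL1, hL2, hL3, hL4⟩ := aBig G H hTB L₀ hL₀ {x}
  rw [Finset.coe_union, Set.union_subset_iff] at hst₀
  refine ⟨L, hL1, hL2, hL4 (by simp), ?_⟩
  intro L' hLL
  have hX := NC_mono (A := Subgroup.zpowers x) (hL3.trans hLL)
  refine ⟨?_, ?_⟩
  · apply NC_le_of_inv (inv_comm (inv_NC L' _))
    have h1 : Subgroup.closure (s : Set G) ≤ NC L' (Subgroup.zpowers x) :=
      (Subgroup.closure_le _).2 (fun y hy => hX (hst₀.1 hy))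
    exact Subgroup.commutator_mono h1 h1 hs
  · intro Y h0 hc
    refine le_trans ?_ (DD_le h0 hc)
    apply NC_le_of_inv (inv_DD c (inv_NC L' _))
    exact ⟨t, fun y hy => hX (hst₀.2 hy), hxt, ht⟩

end Pool.Agent.MPcc2398
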