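import Pool.Agent.Lib.MP_cc2398_al.Bf.Core

set_option autoImplicit false

/-!
# MP_cc2398_al: block groups with bounded nonabelian composition factors
-/

namespace Pool.Agent.MPcc2398

universe u v

namespace Bf

open Pointwise

theorem stab_of_block {G : Type u} [Group G] {Ω : Type v} [MulAction G Ω] {B : Set Ω}
    (hB : MulAction.IsBlock G B) {ω : Ω} (hω : ω ∈ B) {g : G} (hg : g • ω ∈ B) :
    g ∈ MulAction.stabilizer G B := by
  rw [MulAction.mem_stabilizer_iff]
  apply (MulAction.isBlock_iff_smul_eq_of_nonempty.1 hB)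
  exact ⟨g • ω, Set.smul_mem_smul_set hω, hg⟩

theorem NC_descend {G : Type u} [Group G] {X : Subgroup G} (hX : X ≤ ⁅X, X⁆) {c : ℕ}
    (hc : ∀ Y : Subgroup G, Y.relIndex X ≠ 0 → Y.relIndex X ≤ c → X ≤ Y) (k : ℕ) (N : ℕ → Subgroup G)
    (hN : ∀ i < k, (∀ a ∈ N (i + 1), ∀ b ∈ N (i + 1), a * b * a⁻¹ * b⁻¹ ∈ N i) ∨
      ((N i).relIndex (N (i + 1)) ≠ 0 ∧ (N i).relIndex (N (i + 1)) ≤ c)) (hk : X ≤ N k) : X ≤ N 0 := by
  have key : ∀ j ≤ k, X ≤ N (k - j) := by
    intro j
    induction j with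
    | zero => intro _; simpa using hk
    | succ j ih =>
      intro hj
      have h1 := ih (by omega)
      obtain ⟨i, hi⟩ : ∃ i, k - j = i + 1 := ⟨k - j - 1, by omega⟩
      have hi' : k - (j + 1) = i := by omega
      rw [hi'] 
      rw [hi] at h1
      rcases hN i (by omega) with h | ⟨h0, hle⟩
      · refine hX.trans ?_
        rw [Subgroup.commutator_le]
        intro a ha b hb
        exact h a (h1 ha) b (h1 hb)
      · exact hc (N i) (fun h => h0 (by
          have := Subgroup.relIndex_eq_zero_of_le_right h1 h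
          exact this)) ((Subgroup.relIndex_le_of_le_right h1 h0).trans hle)
  have := key k le_rfl
  simpa using this

end Bf

open Bf in
open Pointwise in
/-- **Tower.**  If the group induced on arbitrarily large finite blocks has a chain of subgroups with steps of index
at most `c` or containing the derived subgroup, then `G` is locally finite. -/
theorem aTower (G : Type u) [Group G] (Ω : Type v) [MulAction G Ω] [Infinite Ω] [FaithfulSMul G Ω]
    [MulAction.IsPretransitive G Ω]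
    (hbarely : ∀ K : Subgroup G, K ≠ ⊤ → ∀ ω : Ω, (MulAction.orbit K ω).Finite) (c : ℕ)
    (himp : ∀ F : Set Ω, F.Finite → ∃ B : Set Ω, F ⊆ B ∧ B.Finite ∧ MulAction.IsBlock G B ∧
      ∃ (k : ℕ) (N : ℕ → Subgroup G), (∀ g : G, (∀ β ∈ B, g • β ∈ B) → g ∈ N k) ∧
        (∀ g ∈ N 0, ∀ β ∈ B, g • β = β) ∧
        ∀ i < k, (∀ a ∈ N (i + 1), ∀ b ∈ N (i + 1), a * b * a⁻¹ * b⁻¹ ∈ N i) ∨
          ((N i).relIndex (N (i + 1)) ≠ 0 ∧ (N i).relIndex (N (i + 1)) ≤ c)) :
    ∀ s : Finset G, ((Subgroup.closure (s : Set G) : Subgroup G) : Set G).Finite := by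
  have hLF : LF (⊤ : Subgroup G) := by
    by_contra hnlf
    obtain ⟨ω⟩ : Nonempty Ω := inferInstance
    obtain ⟨hTB, hcore⟩ := aAct G Ω inferInstance inferInstance inferInstance hbarely
      (fun F hF => by
        obtain ⟨B, h1, h2, h3, -⟩ := himp F hF
        exact ⟨B, h1, h2, h3⟩) ω
    obtain ⟨R, hRn, hRt, hRLF, hRmax, h⟩ := aBF G _ hTB hcore hnlf
    obtain ⟨x, hx⟩ : ∃ x : G, x ∉ R := by
      by_contra hne
      push Not at hne
      exact hRt (by rw [Subgroup.eq_top_iff']; exact hne)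
    obtain ⟨L, hLt, -, hxL, hL⟩ := h c x hx
    obtain ⟨hX1, hX2⟩ := hL L le_rfl
    obtain ⟨ω', hω'⟩ : ∃ ω' : Ω, x • ω' ≠ ω' := by
      by_contra hne
      push Not at hne
      apply hx
      have : x = 1 := FaithfulSMul.eq_of_smul_eq_smul (α := Ω) (fun a => by rw [one_smul, hne a])
      rw [this]
      exact R.one_mem
    obtain ⟨B, hFB, hBf, hB, k, N, hNk, hN0, hN⟩ := himp (MulAction.orbit L ω ∪ {ω'})
      ((hbarely L hLt ω).union (Set.finite_singleton ω'))
    have hωB : ω ∈ B := hFB (Or.inl (MulAction.mem_orbit_self ω))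
    have hLN : L ≤ N k := by
      intro l hl
      apply hNk l
      have h1 : l ∈ MulAction.stabilizer G B := stab_of_block hB hωB (hFB (Or.inl ⟨⟨l, hl⟩, rfl⟩))
      intro β hβ
      rw [MulAction.mem_stabilizer_iff] at h1
      rw [← h1]
      exact Set.smul_mem_smul_set hβ
    have hxN : NC L (Subgroup.zpowers x) ≤ N k := (NC_le ((Subgroup.zpowers_le).2 hxL)).trans hLN
    have h0 := NC_descend hX1 hX2 k N hN hxN
    exact hω' (hN0 x (h0 (le_NC L _ (Subgroup.mem_zpowers x))) ω' (hFB (Or.inr rfl)))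
  intro s
  exact hLF s (by simp)

open Bf in
open Pointwise in
/-- **Soluble block groups.** -/
theorem aTowerSol (G : Type u) [Group G] (Ω : Type v) [MulAction G Ω] [Infinite Ω] [FaithfulSMul G Ω]
    [MulAction.IsPretransitive G Ω]
    (hbarely : ∀ K : Subgroup G, K ≠ ⊤ → ∀ ω : Ω, (MulAction.orbit K ω).Finite)
    (himp : ∀ F : Set Ω, F.Finite → ∃ B : Set Ω, F ⊆ B ∧ B.Finite ∧ MulAction.IsBlock G B ∧
      ∃ d : ℕ, ∀ g ∈ derivedSeries (MulAction.stabilizer G B) d, ∀ β ∈ B, (g : G) • β = β) :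
    ∀ s : Finset G, ((Subgroup.closure (s : Set G) : Subgroup G) : Set G).Finite := by
  refine aTower G Ω hbarely 0 (fun F hF => ?_)
  obtain ⟨B, h1, h2, h3, d, hd⟩ := himp F hF
  refine ⟨B, h1, h2, h3, d,
    fun i => (derivedSeries (MulAction.stabilizer G B) (d - i)).map (MulAction.stabilizer G B).subtype,
    ?_, ?_, ?_⟩
  · intro g hg
    have hgs : g ∈ MulAction.stabilizer G B := by
      rcases B.eq_empty_or_nonempty with he | ⟨β, hβ⟩
      · rw [he, MulAction.mem_stabilizer_iff]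
        simp
      · exact stab_of_block h3 hβ (hg β hβ)
    beta_reduce
    rw [Nat.sub_self, derivedSeries_zero]
    exact ⟨⟨g, hgs⟩, Subgroup.mem_top _, rfl⟩
  · intro g hg β hβ
    beta_reduce at hg
    rw [Nat.sub_zero] at hg
    obtain ⟨g', hg', rfl⟩ := hg
    exact hd g' hg' β hβ
  · intro i hi
    left
    rintro _ ⟨a, ha, rfl⟩ _ ⟨b, hb, rfl⟩
    have h4 : d - i = (d - (i + 1)) + 1 := by omega
    refine ⟨a * b * a⁻¹ * b⁻¹, ?_, by simp⟩
    rw [h4, derivedSeries_succ]
    exact Subgroup.commutator_mem_commutator ha hb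

end Pool.Agent.MPcc2398
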