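import Pool.Agent.Lib.MP_cc2398_al.Bf.Tower

set_option autoImplicit false

/-!
# MP_cc2398_al: chains of finite blocks with bounded ratio
-/

namespace Pool.Agent.MPcc2398

universe u v

namespace Bf

open Pointwise

theorem relIndex_stab {G : Type u} [Group G] {Ω : Type v} [MulAction G Ω] (X : Subgroup G) (a : Ω) :
    (MulAction.stabilizer G a).relIndex X = (MulAction.orbit X a).ncard := by
  have h1 : (MulAction.stabilizer G a).relIndex X = (MulAction.stabilizer X a).index := by
    unfold Subgroup.relIndex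
    congr 1
  rw [h1, MulAction.index_stabilizer]

/-- The orbit of a block `C` inside of `D` under a group `X` which fixes `D`. -/
theorem orbit_block {G : Type u} [Group G] {Ω : Type v} [MulAction G Ω] {X : Subgroup G} {C D : Set Ω}
    (hC : MulAction.IsBlock G C) (hne : C.Nonempty) (hCD : C ⊆ D) (hD : D.Finite)
    (hX : X ≤ MulAction.stabilizer G D) {c : ℕ} (hc : D.ncard ≤ c * C.ncard) :
    (MulAction.stabilizer G C).relIndex X ≠ 0 ∧ (MulAction.stabilizer G C).relIndex X ≤ c := by
  classical
  rw [relIndex_stab]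
  have hsub : ∀ E ∈ MulAction.orbit X C, E ⊆ D := by
    rintro _ ⟨g, rfl⟩
    have h1 : (g : G) • D = D := hX g.2
    show (g : G) • C ⊆ D
    rw [← h1]
    exact Set.smul_set_mono hCD
  have hfin : (MulAction.orbit X C).Finite := hD.finite_subsets.subset hsub
  have hcard : ∀ E ∈ MulAction.orbit X C, E.ncard = C.ncard := by
    rintro _ ⟨g, rfl⟩
    show ((g : G) • C).ncard = C.ncard
    exact Set.ncard_smul_set _ _
  have hdisj : (MulAction.orbit X C).PairwiseDisjoint id := by
    rintro _ ⟨g, rfl⟩ _ ⟨h, rfl⟩ hgh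
    have := (MulAction.isBlock_iff_smul_eq_or_disjoint.1 hC) ((h : G)⁻¹ * g)
    rcases this with h1 | h1
    · exfalso
      apply hgh
      show (g : G) • C = (h : G) • C
      rw [mul_smul] at h1
      conv_rhs => rw [← h1]
      rw [smul_inv_smul]
    · show Disjoint ((g : G) • C) ((h : G) • C)
      rw [mul_smul] at h1
      rw [Set.disjoint_left] at h1 ⊢
      intro y hy hy'
      have h2 : (h : G)⁻¹ • y ∈ (h : G)⁻¹ • (g : G) • C := Set.smul_mem_smul_set hy
      refine h1 h2 ?_
      rw [← Set.mem_smul_set_iff_inv_smul_mem]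
      exact hy'
  have hCf : C.Finite := hD.subset hCD
  have hmul : (MulAction.orbit X C).ncard * C.ncard ≤ D.ncard := by
    have h1 : (⋃ E ∈ MulAction.orbit X C, E) ⊆ D := Set.iUnion₂_subset hsub
    have h2 : (⋃ E ∈ MulAction.orbit X C, E).ncard = (MulAction.orbit X C).ncard * C.ncard := by
      have h3 := hfin.ncard_biUnion (s := fun E : Set Ω => E)
        (fun E hE => hD.subset (hsub E hE)) hdisj
      rw [h3, finsum_mem_eq_finite_toFinset_sum _ hfin,
        Finset.sum_congr rfl (fun E hE => hcard E (hfin.mem_toFinset.1 hE)), Finset.sum_const,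
        smul_eq_mul, Set.ncard_eq_toFinset_card _ hfin]
    rw [← h2]
    exact Set.ncard_le_ncard h1 hD
  have hCpos : 0 < C.ncard := (Set.ncard_pos hCf).2 hne
  constructor
  · intro h0
    rw [Set.ncard_eq_zero hfin] at h0
    have h4 : C ∈ MulAction.orbit X C := MulAction.mem_orbit_self C
    rw [h0] at h4
    exact h4
  · exact Nat.le_of_mul_le_mul_right (hmul.trans hc) hCpos

end Bf

open Bf in
open Pointwise in
/-- **Ratio.**  Chains of finite blocks with bounded ratio. -/
theorem aRatio (G : Type u) [Group G] (Ω : Type v) [MulAction G Ω] [Infinite Ω] [FaithfulSMul G Ω]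
    [MulAction.IsPretransitive G Ω]
    (hbarely : ∀ K : Subgroup G, K ≠ ⊤ → ∀ ω : Ω, (MulAction.orbit K ω).Finite)
    (c : ℕ) (B : ℕ → Set Ω) (hBf : ∀ i, (B i).Finite) (hB : ∀ i, MulAction.IsBlock G (B i))
    (hne : (B 0).Nonempty) (hmono : ∀ i, B i ⊆ B (i + 1))
    (hcard : ∀ i, (B (i + 1)).ncard ≤ c * (B i).ncard) (hun : ∀ ω : Ω, ∃ i, ω ∈ B i) :
    ∀ s : Finset G, ((Subgroup.closure (s : Set G) : Subgroup G) : Set G).Finite := by
  have hm : Monotone B := monotone_nat_of_le_succ hmono
  have hbig : ∀ F : Set Ω, F.Finite → ∃ i, F ⊆ B i := by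
    intro F hF
    induction F, hF using Set.Finite.induction_on with
    | empty => exact ⟨0, Set.empty_subset _⟩
    | @insert a F _ _ ih =>
      obtain ⟨i, hi⟩ := ih
      obtain ⟨j, hj⟩ := hun a
      exact ⟨max i j, Set.insert_subset (hm (le_max_right i j) hj) (hi.trans (hm (le_max_left i j)))⟩
  have hLF : LF (⊤ : Subgroup G) := by
    by_contra hnlf
    obtain ⟨ω, hω⟩ := hne
    obtain ⟨hTB, hcore⟩ := aAct G Ω inferInstance inferInstance inferInstance hbarely
      (fun F hF => by
        obtain ⟨i, hi⟩ := hbig F hF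
        exact ⟨B i, hi, hBf i, hB i⟩) ω
    obtain ⟨R, hRn, hRt, hRLF, hRmax, h⟩ := aBF G _ hTB hcore hnlf
    obtain ⟨x, hx⟩ : ∃ x : G, x ∉ R := by
      by_contra hne
      push Not at hne
      exact hRt (by rw [Subgroup.eq_top_iff']; exact hne)
    obtain ⟨L, hLt, -, hxL, hL⟩ := h (max c (B 0).ncard) x hx
    obtain ⟨-, hX2⟩ := hL L le_rfl
    obtain ⟨ω', hω'⟩ : ∃ ω' : Ω, x • ω' ≠ ω' := by
      by_contra hne
      push Not at hne
      apply hx
      have : x = 1 := FaithfulSMul.eq_of_smul_eq_smul (α := Ω) (fun a => by rw [one_smul, hne a])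
      rw [this]
      exact R.one_mem
    obtain ⟨m, hFB⟩ := hbig (MulAction.orbit L ω ∪ {ω'})
      ((hbarely L hLt ω).union (Set.finite_singleton ω'))
    have hωB : ω ∈ B m := hFB (Or.inl (MulAction.mem_orbit_self ω))
    have hω'B : ω' ∈ B m := hFB (Or.inr rfl)
    have hLN : L ≤ MulAction.stabilizer G (B m) := fun l hl =>
      stab_of_block (hB m) hωB (hFB (Or.inl ⟨⟨l, hl⟩, rfl⟩))
    set X := NC L (Subgroup.zpowers x) with hX
    have hXm : X ≤ MulAction.stabilizer G (B m) := (NC_le ((Subgroup.zpowers_le).2 hxL)).trans hLN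
    obtain ⟨g, hg⟩ := MulAction.exists_smul_eq G ω ω'
    have hmem : ∀ j, ω' ∈ g • B j := fun j => by
      rw [← hg]
      exact Set.smul_mem_smul_set (hm (Nat.zero_le j) hω)
    have key : ∀ j ≤ m, X ≤ MulAction.stabilizer G (g • B (m - j)) := by
      intro j
      induction j with
      | zero =>
        intro _
        have h1 : g • B m = B m := by
          apply (MulAction.isBlock_iff_smul_eq_of_nonempty.1 (hB m))
          exact ⟨ω', hmem m, hω'B⟩
        rw [Nat.sub_zero, h1]
        exact hXm
      | succ j ih =>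
        intro hj
        have h1 := ih (by omega)
        obtain ⟨i, hi⟩ : ∃ i, m - j = i + 1 := ⟨m - j - 1, by omega⟩
        have hi' : m - (j + 1) = i := by omega
        rw [hi']
        rw [hi] at h1
        obtain ⟨h2, h3⟩ := orbit_block (C := g • B i) (D := g • B (i + 1)) ((hB i).translate g)
          ⟨ω', hmem i⟩ (Set.smul_set_mono (hmono i)) ((hBf (i + 1)).smul_set) h1 (c := c)
          (by rw [Set.ncard_smul_set, Set.ncard_smul_set]; exact hcard i)
        exact hX2 _ h2 (h3.trans (le_max_left _ _))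
    have h0 := key m le_rfl
    rw [Nat.sub_self] at h0
    have h4 : (MulAction.orbit X ω') ⊆ g • B 0 := by
      rintro _ ⟨y, rfl⟩
      have h5 : (y : G) • (g • B 0) = g • B 0 := h0 y.2
      show (y : G) • ω' ∈ g • B 0
      rw [← h5]
      exact Set.smul_mem_smul_set (hmem 0)
    have hf0 : (g • B 0).Finite := (hBf 0).smul_set
    have h6 : X ≤ MulAction.stabilizer G ω' := by
      apply hX2
      · rw [relIndex_stab]
        intro h7
        rw [Set.ncard_eq_zero (hf0.subset h4)] at h7
        have h8 : ω' ∈ MulAction.orbit X ω' := MulAction.mem_orbit_self ω'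
        rw [h7] at h8
        exact h8
      · rw [relIndex_stab]
        refine (Set.ncard_le_ncard h4 hf0).trans ?_
        rw [Set.ncard_smul_set]
        exact le_max_right _ _
    exact hω' (h6 (le_NC L _ (Subgroup.mem_zpowers x)))
  intro s
  exact hLF s (by simp)

end Pool.Agent.MPcc2398
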